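import Mathlib

/-! The polynomial van der Waerden theorem over a commutative ring, in finitary form. -/

set_option autoImplicit false

namespace Pool.Agent.H165Z.Pvdw

open Polynomial

variable {R : Type} [CommRing R]

/-- finitary polynomial van der Waerden property of a finite family -/
def VDW (P : Finset R[X]) : Prop :=
  ∀ (κ : Type) [Finite κ], ∃ (S : Finset R) (M : ℕ), ∀ c : R → κ,
    ∃ a ∈ S, ∃ d : ℕ, 1 ≤ d ∧ d ≤ M ∧ ∀ p ∈ P, c (a + p.eval (d : R)) = c a

/-- the shifted family member -/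
noncomputable def shift (p₁ p : R[X]) (d : ℕ) : R[X] := taylor (d : R) p - C (p.eval (d : R)) - p₁

theorem eval_shift (p₁ p : R[X]) (d e : ℕ) :
    (shift p₁ p d).eval (e : R) = p.eval ((d + e : ℕ) : R) - p.eval (d : R) - p₁.eval (e : R) := by
  simp [shift, taylor_eval, add_comm]

open Classical in
noncomputable def shiftFam (p₁ : R[X]) (P : Finset R[X]) (W : ℕ) : Finset R[X] :=
  (P ×ˢ Finset.range (W + 1)).image fun z => shift p₁ z.1 z.2

theorem focus (P : Finset R[X]) (p₁ : R[X]) (h0 : ∀ p ∈ P, p.eval 0 = 0)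
    (hQ : ∀ W, VDW (shiftFam p₁ P W)) : VDW P := by
  classical
  intro κ _
  have := Fintype.ofFinite κ
  have key : ∀ r : ℕ, ∃ (S : Finset R) (M : ℕ), ∀ c : R → κ,
      (∃ a ∈ S, ∃ d : ℕ, 1 ≤ d ∧ d ≤ M ∧ ∀ p ∈ P, c (a + p.eval (d : R)) = c a) ∨
      (∃ a ∈ S, ∃ T : Finset κ, T.card = r ∧ ∀ col ∈ T, ∃ d : ℕ, 1 ≤ d ∧ d ≤ M ∧
        ∀ p ∈ P, c (a + p.eval (d : R)) = col) := by
    intro r
    induction r with
    | zero => exact ⟨{0}, 0, fun c => Or.inr ⟨0, by simp, ∅, rfl, by simp⟩⟩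
    | succ r ih =>
      obtain ⟨S, M, hS⟩ := ih
      let Wd : Finset R := (S ×ˢ P ×ˢ Finset.range (M + 1)).image
        fun z => z.1 + z.2.1.eval (z.2.2 : R)
      obtain ⟨S', M', hS'⟩ := hQ M (Wd → κ)
      refine ⟨((S' ×ˢ S).image fun z => z.1 + z.2) ∪
        ((S' ×ˢ S ×ˢ Finset.range (M' + 1)).image fun z => z.1 + z.2.1 - p₁.eval (z.2.2 : R)),
        M + M', fun c => ?_⟩
      obtain ⟨x, hx, d', hd1, hd2, hx'⟩ := hS' fun x w => c (x + w)
      have hmem : ∀ a ∈ S, x + a ∈ ((S' ×ˢ S).image fun z => z.1 + z.2) ∪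
          ((S' ×ˢ S ×ˢ Finset.range (M' + 1)).image
            fun z => z.1 + z.2.1 - p₁.eval (z.2.2 : R)) := fun a ha =>
        Finset.mem_union_left _ (Finset.mem_image.2 ⟨(x, a), Finset.mem_product.2 ⟨hx, ha⟩, rfl⟩)
      rcases hS (fun z => c (x + z)) with ⟨a, ha, d, h1, h2, h3⟩ | ⟨a, ha, T, hT, h3⟩
      · exact Or.inl ⟨x + a, hmem a ha, d, h1, by omega, fun p hp => by
          rw [add_assoc]; exact h3 p hp⟩
      by_cases hc : c (x + a) ∈ T
      · obtain ⟨d, h1, h2, h4⟩ := h3 _ hc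
        exact Or.inl ⟨x + a, hmem a ha, d, h1, by omega, fun p hp => by
          rw [add_assoc]; exact h4 p hp⟩
      have hstep : ∀ p ∈ P, ∀ d ≤ M, c (x + a - p₁.eval (d' : R) + p.eval ((d + d' : ℕ) : R)) =
          c (x + (a + p.eval (d : R))) := by
        intro p hp d hd
        have h5 := congrFun (hx' (shift p₁ p d) (Finset.mem_image.2 ⟨(p, d), Finset.mem_product.2
          ⟨hp, Finset.mem_range.2 (by omega)⟩, rfl⟩)) ⟨a + p.eval (d : R), Finset.mem_image.2
            ⟨(a, p, d), by simp [ha, hp]; omega, rfl⟩⟩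
        simp only [eval_shift] at h5
        rw [← h5]
        congr 1
        ring
      refine Or.inr ⟨x + a - p₁.eval (d' : R), Finset.mem_union_right _ (Finset.mem_image.2
        ⟨(x, a, d'), by simp [hx, ha]; omega, rfl⟩), insert (c (x + a)) T,
        by rw [Finset.card_insert_of_notMem hc, hT], fun col hcol => ?_⟩
      rcases Finset.mem_insert.1 hcol with rfl | hcol
      · refine ⟨d', hd1, by omega, fun p hp => ?_⟩
        have := hstep p hp 0 (Nat.zero_le _)
        simpa [h0 p hp] using this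
      · obtain ⟨d, h1, h2, h4⟩ := h3 _ hcol
        exact ⟨d + d', by omega, by omega, fun p hp => (hstep p hp d h2).trans (h4 p hp)⟩
  obtain ⟨S, M, hS⟩ := key (Fintype.card κ + 1)
  refine ⟨S, M, fun c => (hS c).resolve_right ?_⟩
  rintro ⟨a, -, T, hT, -⟩
  have := Finset.card_le_univ T
  omega

open Classical in
/-- leading coefficients of the members of degree `e` -/
noncomputable def cls (P : Finset R[X]) (e : ℕ) : Finset R :=
  (P.filter fun p => p.natDegree ≤ e ∧ p.coeff e ≠ 0).image fun p => p.coeff e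

theorem coeff_shift (p₁ p : R[X]) (d : ℕ) {e : ℕ} (he : 1 ≤ e) (hp : p.natDegree ≤ e) :
    (shift p₁ p d).coeff e = p.coeff e - p₁.coeff e := by
  have h1 : (taylor (d : R) p).coeff e = p.coeff e := by
    rcases hp.lt_or_eq with h | h
    · rw [coeff_eq_zero_of_natDegree_lt h, coeff_eq_zero_of_natDegree_lt (by simpa using h)]
    · have := leadingCoeff_taylor (d : R) p
      rwa [leadingCoeff, leadingCoeff, natDegree_taylor, h] at this
  simp [shift, h1, coeff_C, show e ≠ 0 by omega]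

theorem natDegree_shift_le (p₁ p : R[X]) (d : ℕ) {D : ℕ} (h1 : p₁.natDegree ≤ D)
    (hp : p.natDegree ≤ D) : (shift p₁ p d).natDegree ≤ D := by
  refine (natDegree_sub_le _ _).trans (max_le ((natDegree_sub_le _ _).trans (max_le ?_ ?_)) h1)
  · simpa using hp
  · simp

theorem mem_cls_shift {P : Finset R[X]} {p₁ : R[X]} {W e : ℕ} (he : 1 ≤ e)
    (h1 : p₁.natDegree ≤ e) {z : R} (hz : z ∈ cls (shiftFam p₁ P W) e) :
    z ≠ 0 ∧ ∃ p ∈ P, p.natDegree ≤ e ∧ z = p.coeff e - p₁.coeff e := by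
  classical
  simp only [cls, shiftFam, Finset.mem_image, Finset.mem_filter, Finset.mem_product] at hz
  obtain ⟨q, ⟨⟨⟨p, d⟩, ⟨hp, -⟩, rfl⟩, h2, h3⟩, rfl⟩ := hz
  have h4 : p.natDegree ≤ e := by
    by_contra h
    push Not at h
    have h5 := coeff_shift p₁ p d (e := p.natDegree) (by omega) le_rfl
    rw [coeff_eq_zero_of_natDegree_lt (h2.trans_lt h),
      coeff_eq_zero_of_natDegree_lt (h1.trans_lt h), sub_zero] at h5
    have : p = 0 := leadingCoeff_eq_zero.1 h5.symm
    rw [this] at h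
    simp at h
  exact ⟨h3, p, hp, h4, coeff_shift p₁ p d he h4⟩

theorem vdw_aux (D : ℕ) (w : Lex (Fin (D + 1) → ℕ)) : ∀ P : Finset R[X],
    (∀ p ∈ P, p.coeff 0 = 0 ∧ p.natDegree ≤ D) →
    (∀ j : Fin (D + 1), (cls P (D - j)).card ≤ ofLex w j) → VDW P := by
  classical
  induction w using WellFoundedLT.induction with
  | ind w ih =>
    intro P hP hw
    have hred : VDW (P.erase 0) → VDW P := by
      intro h κ _
      obtain ⟨S, M, hS⟩ := h κ
      refine ⟨S, M, fun c => ?_⟩
      obtain ⟨a, ha, d, h1, h2, h3⟩ := hS c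
      refine ⟨a, ha, d, h1, h2, fun p hp => ?_⟩
      by_cases h0 : p = 0
      · simp [h0]
      · exact h3 p (Finset.mem_erase.2 ⟨h0, hp⟩)
    apply hred
    rcases (P.erase 0).eq_empty_or_nonempty with he | hne
    · rw [he]
      intro κ _
      exact ⟨{0}, 1, fun c => ⟨0, by simp, 1, le_rfl, le_rfl, by simp⟩⟩
    obtain ⟨p₁, hp₁, hmin⟩ := Finset.exists_min_image _ natDegree hne
    obtain ⟨hp₁0, hp₁P⟩ := Finset.mem_erase.1 hp₁
    have he1 : 1 ≤ p₁.natDegree := by
      by_contra h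
      have h2 : p₁.natDegree = 0 := by omega
      rw [eq_C_of_natDegree_eq_zero h2, (hP _ hp₁P).1, C_0] at hp₁0
      exact hp₁0 rfl
    have heD := (hP _ hp₁P).2
    refine focus _ p₁ (fun p hp => ?_) fun W => ?_
    · rw [← coeff_zero_eq_eval_zero]; exact (hP p (Finset.mem_of_mem_erase hp)).1
    let j₁ : Fin (D + 1) := ⟨D - p₁.natDegree, by omega⟩
    have hj₁ : D - (j₁ : ℕ) = p₁.natDegree := by simp only [j₁]; omega
    have hlt : (cls (shiftFam p₁ (P.erase 0) W) p₁.natDegree).card < (cls P p₁.natDegree).card := by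
      have hm : p₁.coeff p₁.natDegree ∈ cls P p₁.natDegree :=
        Finset.mem_image.2 ⟨p₁, Finset.mem_filter.2 ⟨hp₁P, le_rfl, leadingCoeff_ne_zero.2 hp₁0⟩, rfl⟩
      have hsub : cls (shiftFam p₁ (P.erase 0) W) p₁.natDegree ⊆
          ((cls P p₁.natDegree).erase (p₁.coeff p₁.natDegree)).image
            fun z => z - p₁.coeff p₁.natDegree := by
        intro z hz
        obtain ⟨hz0, p, hp, h1, rfl⟩ := mem_cls_shift he1 le_rfl hz
        refine Finset.mem_image.2 ⟨p.coeff p₁.natDegree, Finset.mem_erase.2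
          ⟨sub_ne_zero.1 hz0, Finset.mem_image.2 ⟨p, Finset.mem_filter.2
            ⟨Finset.mem_of_mem_erase hp, h1, ?_⟩, rfl⟩⟩, rfl⟩
        rw [← le_antisymm h1 (hmin p hp)]
        exact leadingCoeff_ne_zero.2 (Finset.mem_erase.1 hp).1
      refine (Finset.card_le_card hsub).trans_lt (Finset.card_image_le.trans_lt ?_)
      exact Finset.card_erase_lt_of_mem hm
    refine ih (toLex fun j => if j < j₁ then ofLex w j
      else (cls (shiftFam p₁ (P.erase 0) W) (D - j)).card) ⟨j₁, fun j hj => ?_, ?_⟩ _ ?_ ?_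
    · exact if_pos hj
    · have := hw j₁
      rw [hj₁] at this
      show (if j₁ < j₁ then ofLex w j₁ else (cls (shiftFam p₁ (P.erase 0) W) (D - j₁)).card) <
        ofLex w j₁
      rw [if_neg (lt_irrefl _), hj₁]
      omega
    · intro q hq
      simp only [shiftFam, Finset.mem_image, Finset.mem_product] at hq
      obtain ⟨⟨p, d⟩, ⟨hp, -⟩, rfl⟩ := hq
      refine ⟨?_, natDegree_shift_le _ _ _ heD (hP p (Finset.mem_of_mem_erase hp)).2⟩
      simp [shift, (hP _ hp₁P).1, taylor_coeff_zero]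
    · intro j
      show _ ≤ if j < j₁ then ofLex w j else (cls (shiftFam p₁ (P.erase 0) W) (D - j)).card
      split_ifs with hj
      · refine le_trans (Finset.card_le_card fun z hz => ?_) (hw j)
        have hj' : (j : ℕ) < D - p₁.natDegree := hj
        obtain ⟨hz0, p, hp, h1, rfl⟩ := mem_cls_shift (by omega) (by omega) hz
        rw [coeff_eq_zero_of_natDegree_lt (p := p₁) (by omega), sub_zero] at hz0 ⊢
        exact Finset.mem_image.2 ⟨p, Finset.mem_filter.2 ⟨Finset.mem_of_mem_erase hp, h1, hz0⟩, rfl⟩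
      · exact le_rfl

theorem vdw (P : Finset R[X]) (hP : ∀ p ∈ P, p.coeff 0 = 0) : VDW P :=
  vdw_aux (P.sup natDegree) (toLex fun j => (cls P (P.sup natDegree - j)).card) P
    (fun p hp => ⟨hP p hp, Finset.le_sup (f := natDegree) hp⟩) fun _ => le_rfl

end Pool.Agent.H165Z.Pvdw
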