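import Pool.Agent.H165Z.Pvdw.Basic

/-! An iterated form of the polynomial van der Waerden theorem: the colouring of a condition of
level `j` may depend on the first `j - 1` chosen integers. -/

set_option autoImplicit false

namespace Pool.Agent.H165Z.Pvdw

open Polynomial

/-- put `d` in front of a sequence -/
def cons (d : ℕ) (n : ℕ → ℕ) : ℕ → ℕ
  | 0 => d
  | b + 1 => n b

theorem iter (N : ℕ) : ∀ (R : Type) [CommRing R] (ι σ κ : Type) [Fintype ι] [Fintype σ] [Finite κ]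
    (lev : ι → ℕ) (a : ι → σ → R) (α : ι → σ → ℕ → ℕ),
    ∃ (S : Finset R) (M : ℕ), 1 ≤ M ∧ ∀ ψ : ι → (ℕ → ℕ) → R → κ,
      (∀ i n n', (∀ b, b + 1 < lev i → n b = n' b) → ψ i n = ψ i n') →
      ∃ x ∈ S, ∃ n : ℕ → ℕ, (∀ b, 1 ≤ n b ∧ n b ≤ M) ∧ ∀ i, 1 ≤ lev i → lev i ≤ N →
        ψ i n (x + ∑ s, a i s * ∏ b ∈ Finset.range (lev i), (n b : R) ^ (α i s b + 1)) =
          ψ i n x := by
  classical
  induction N with
  | zero =>
    intro R _ ι σ κ _ _ _ lev a α
    exact ⟨{0}, 1, le_rfl, fun ψ _ => ⟨0, by simp, fun _ => 1, fun _ => ⟨le_rfl, le_rfl⟩,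
      fun i h1 h2 => by omega⟩⟩
  | succ N ih =>
    intro R _ ι σ κ _ _ _ lev a α
    obtain ⟨S', M', hM', h'⟩ := ih R[X] ι σ κ (fun i => lev i - 1)
      (fun i s => C (a i s) * X ^ (α i s 0 + 1)) (fun i s b => α i s (b + 1))
    let π : R[X] → R[X] := fun f => f - C (f.coeff 0)
    let u : Option ι → R[X] := fun o => o.elim 0 fun i => ∑ s, C (a i s) * X ^ (α i s 0 + 1)
    have hu : ∀ o, (u o).coeff 0 = 0 := by
      rintro (_ | i)
      · simp [u]
      · simp [u, coeff_X_pow]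
    let P : Finset R[X] := (S' ×ˢ (Finset.univ : Finset (Option ι))).image fun z => π z.1 + u z.2
    have hP : ∀ p ∈ P, p.coeff 0 = 0 := by
      intro p hp
      obtain ⟨z, -, rfl⟩ := Finset.mem_image.1 hp
      simp [π, hu]
    obtain ⟨S₁, M₁, h₁⟩ := vdw P hP (ι → κ)
    refine ⟨(S₁ ×ˢ S' ×ˢ Finset.range (M₁ + 1)).image
      fun z => z.1 + (π z.2.1).eval (z.2.2 : R), max M' M₁, le_max_of_le_left hM', fun ψ hψ => ?_⟩
    obtain ⟨x₁, hx₁, d, hd1, hd2, hd⟩ := h₁ fun x i => ψ i (fun _ => 0) x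
    obtain ⟨s, hs, n', hn', hs'⟩ := h' (fun i n' f => ψ i (cons d n') (x₁ + (π f).eval (d : R)))
      (fun i n n' h => by
        rw [hψ i (cons d n) (cons d n') ?_]
        rintro (_ | b) hb
        · rfl
        · exact h b (by omega))
    refine ⟨x₁ + (π s).eval (d : R), Finset.mem_image.2 ⟨(x₁, s, d), by simp [hx₁, hs]; omega, rfl⟩,
      cons d n', ?_, fun i h1 h2 => ?_⟩
    · rintro (_ | b)
      · exact ⟨hd1, le_max_of_le_right hd2⟩
      · exact ⟨(hn' b).1, le_max_of_le_left (hn' b).2⟩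
    rcases h1.eq_or_lt with h1 | h1
    · rw [hψ i (cons d n') (fun _ => 0) fun b hb => by omega]
      have e1 := congrFun (hd (π s + u none) (Finset.mem_image.2 ⟨(s, none), by simp [hs], rfl⟩)) i
      have e2 := congrFun (hd (π s + u (some i))
        (Finset.mem_image.2 ⟨(s, some i), by simp [hs], rfl⟩)) i
      simp only [u, Option.elim, add_zero] at e1 e2
      rw [e1, ← e2, ← h1]
      congr 1
      simp [eval_finsetSum, cons, add_assoc]
    · have e1 := hs' i (by omega) (by omega)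
      rw [← e1]
      congr 1
      obtain ⟨k, hk⟩ : ∃ k, lev i = k + 1 := ⟨lev i - 1, by omega⟩
      have e2 : (∑ s, C (a i s) * X ^ (α i s 0 + 1) *
          ∏ b ∈ Finset.range (lev i - 1), (n' b : R[X]) ^ (α i s (b + 1) + 1)).coeff 0 = 0 := by
        simp [coeff_X_pow]
      simp only [π, coeff_add, e2, add_zero]
      rw [hk]
      simp only [Nat.add_sub_cancel, Finset.prod_range_succ', cons, eval_sub, eval_add,
        eval_finsetSum, eval_mul, eval_C, eval_pow, eval_X, eval_prod, eval_natCast]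
      have e3 : ∀ s, a i s * ((∏ b ∈ Finset.range k, (n' b : R) ^ (α i s (b + 1) + 1)) *
          (d : R) ^ (α i s 0 + 1)) = a i s * (d : R) ^ (α i s 0 + 1) *
            ∏ b ∈ Finset.range k, (n' b : R) ^ (α i s (b + 1) + 1) := fun s => by ring
      simp only [e3]
      ring

/-- the bound `M` does not depend on the coefficients -/
theorem iter_unif (N : ℕ) (ι σ κ : Type) [Fintype ι] [Fintype σ] [Finite κ]
    (lev : ι → ℕ) (α : ι → σ → ℕ → ℕ) :
    ∃ M : ℕ, ∀ (R : Type) [CommRing R] (a : ι → σ → R) (ψ : ι → (ℕ → ℕ) → R → κ),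
      (∀ i n n', (∀ b, b + 1 < lev i → n b = n' b) → ψ i n = ψ i n') →
      ∃ x : R, ∃ n : ℕ → ℕ, (∀ b, 1 ≤ n b ∧ n b ≤ M) ∧ ∀ i, 1 ≤ lev i → lev i ≤ N →
        ψ i n (x + ∑ s, a i s * ∏ b ∈ Finset.range (lev i), (n b : R) ^ (α i s b + 1)) =
          ψ i n x := by
  obtain ⟨S, M, -, h⟩ := iter N (MvPolynomial (ι × σ) ℤ) ι σ κ lev
    (fun i s => MvPolynomial.X (i, s)) α
  refine ⟨M, fun R _ a ψ hψ => ?_⟩
  let φ : MvPolynomial (ι × σ) ℤ →ₐ[ℤ] R := MvPolynomial.aeval fun z => a z.1 z.2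
  obtain ⟨x, -, n, hn, hx⟩ := h (fun i n f => ψ i n (φ f)) fun i n n' hn => by rw [hψ i n n' hn]
  refine ⟨φ x, n, hn, fun i h1 h2 => ?_⟩
  have := hx i h1 h2
  simpa [φ] using this

end Pool.Agent.H165Z.Pvdw
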