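import Pool.Agent.H165Z.Pvdw.Iter

/-! Monochromatic `{x, y, x y, x + p(y)}` in finite colourings of the rationals. -/

set_option autoImplicit false

namespace Pool.Agent.H165Z.Pvdw

open Polynomial Finset

/-- `f` is a monomial in the first `j` entries of the sequence -/
def Mono (j : ℕ) (f : (ℕ → ℕ) → ℕ) : Prop :=
  ∃ α : ℕ → ℕ, ∀ n, f n = ∏ b ∈ range j, n b ^ α b

theorem Mono.one (j : ℕ) : Mono j fun _ => 1 := ⟨fun _ => 0, by simp⟩

theorem Mono.mul {j : ℕ} {f g : (ℕ → ℕ) → ℕ} (hf : Mono j f) (hg : Mono j g) :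
    Mono j fun n => f n * g n := by
  obtain ⟨α, hα⟩ := hf
  obtain ⟨β, hβ⟩ := hg
  exact ⟨fun b => α b + β b, fun n => by simp only [hα, hβ, pow_add, prod_mul_distrib]⟩

theorem Mono.pow {j : ℕ} {f : (ℕ → ℕ) → ℕ} (hf : Mono j f) (k : ℕ) : Mono j fun n => f n ^ k := by
  obtain ⟨α, hα⟩ := hf
  exact ⟨fun b => α b * k, fun n => by simp only [hα, pow_mul, prod_pow]⟩

theorem Mono.mono {i j : ℕ} {f : (ℕ → ℕ) → ℕ} (hf : Mono i f) (h : i ≤ j) : Mono j f := by
  obtain ⟨α, hα⟩ := hf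
  refine ⟨fun b => if b < i then α b else 0, fun n => ?_⟩
  rw [hα, ← prod_subset (range_mono h) fun b _ hb => by simp [show ¬ b < i by simpa using hb]]
  exact prod_congr rfl fun b hb => by simp [mem_range.1 hb]

theorem Mono.prod {j : ℕ} (s : Finset ℕ) {f : ℕ → (ℕ → ℕ) → ℕ} (h : ∀ c ∈ s, Mono j (f c)) :
    Mono j fun n => ∏ c ∈ s, f c n := by
  induction s using Finset.induction_on with
  | empty => simpa using Mono.one j
  | insert c s hc ih =>
    simp only [prod_insert hc]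
    exact (h c (mem_insert_self _ _)).mul (ih fun c' hc' => h c' (mem_insert_of_mem hc'))

theorem Mono.congr {j : ℕ} {f : (ℕ → ℕ) → ℕ} (hf : Mono j f) {n n' : ℕ → ℕ}
    (h : ∀ b < j, n b = n' b) : f n = f n' := by
  obtain ⟨α, hα⟩ := hf
  rw [hα, hα]
  exact prod_congr rfl fun b hb => by rw [h b (mem_range.1 hb)]

theorem Mono.bound {j : ℕ} {f : (ℕ → ℕ) → ℕ} (hf : Mono j f) {n : ℕ → ℕ} {M : ℕ}
    (h : ∀ b, 1 ≤ n b ∧ n b ≤ M) : 1 ≤ f n ∧ f n ≤ f fun _ => M := by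
  obtain ⟨α, hα⟩ := hf
  rw [hα, hα]
  exact ⟨one_le_prod' fun b _ => Nat.one_le_pow _ _ (h b).1,
    prod_le_prod' fun b _ => Nat.pow_le_pow_left (h b).2 _⟩

/-- product of the first `j` entries -/
def mB (j : ℕ) (n : ℕ → ℕ) : ℕ := ∏ b ∈ range j, n b

/-- product of the multipliers before stage `c` -/
def mA : ℕ → (ℕ → ℕ) → ℕ
  | 0, _ => 1
  | c + 1, n => mA c n * (mA c n * mB (c + 1) n)

/-- the multiplier of stage `c` -/
def mM (c : ℕ) (n : ℕ → ℕ) : ℕ := mA c n * mB (c + 1) n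

theorem mA_add (i k : ℕ) (n : ℕ → ℕ) : mA (i + k) n = mA i n * ∏ c ∈ range k, mM (i + c) n := by
  induction k with
  | zero => simp
  | succ k ih => rw [prod_range_succ, ← mul_assoc, ← ih, ← add_assoc]; rfl

theorem mono_mB (j : ℕ) : Mono j (mB j) := ⟨fun _ => 1, by simp [mB]⟩

theorem mono_mA (c : ℕ) : Mono c (mA c) := by
  induction c with
  | zero => exact Mono.one 0
  | succ c ih => exact (ih.mono c.le_succ).mul ((ih.mono c.le_succ).mul (mono_mB _))

theorem mono_mM (c : ℕ) : Mono (c + 1) (mM c) := ((mono_mA c).mono c.le_succ).mul (mono_mB _)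

theorem key_mono (i k e : ℕ) : ∃ α : ℕ → ℕ, ∀ n, (∏ c ∈ range (k + 1), mM (i + c) n) ^ (e + 1) =
    mA i n * ∏ b ∈ range (i + k + 1), n b ^ (α b + 1) := by
  have h1 : Mono (i + k + 1) fun n => ∏ c ∈ range (k + 1), mM (i + c) n :=
    Mono.prod _ fun c hc => (mono_mM _).mono (by have := mem_range.1 hc; omega)
  have h2 : Mono (i + k + 1) fun n => ∏ c ∈ range k, mM (i + c) n :=
    Mono.prod _ fun c hc => (mono_mM _).mono (by have := mem_range.1 hc; omega)
  obtain ⟨α, hα⟩ := (h1.pow e).mul (h2.pow 2)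
  refine ⟨α, fun n => ?_⟩
  have h3 := hα n
  simp only [pow_succ (n _), prod_mul_distrib, ← h3]
  have h4 : ∏ c ∈ range (k + 1), mM (i + c) n = (∏ c ∈ range k, mM (i + c) n) *
      (mA i n * (∏ c ∈ range k, mM (i + c) n) * ∏ b ∈ range (i + k + 1), n b) := by
    rw [prod_range_succ, ← mA_add]; rfl
  rw [pow_succ]
  nth_rw 2 [h4]
  ring

section

variable {κ : Type} [Fintype κ] [DecidableEq κ] (col : ℚ → κ)

/-- the union of the colour classes in `Y` is multiplicatively thick -/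
def Thick (Y : Finset κ) : Prop :=
  ∀ E : Finset ℚ, (∀ e ∈ E, e ≠ 0) → ∃ t : ℚ, t ≠ 0 ∧ ∀ e ∈ E, col (t * e) ∈ Y

theorem exists_E : ∃ E : Finset ℚ, 1 ∈ E ∧ (∀ e ∈ E, e ≠ 0) ∧
    ∀ x : ℚ, x ≠ 0 → Thick col (E.image fun e => col (x * e)) := by
  have h : ∀ Y : Finset κ, ∃ E : Finset ℚ, (∀ e ∈ E, e ≠ 0) ∧
      (¬ Thick col Y → ∀ t : ℚ, t ≠ 0 → ∃ e ∈ E, col (t * e) ∉ Y) := by
    intro Y
    by_cases hY : Thick col Y
    · exact ⟨∅, by simp, fun h => absurd hY h⟩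
    · unfold Thick at hY
      push Not at hY
      obtain ⟨E, h1, h2⟩ := hY
      exact ⟨E, h1, fun _ => h2⟩
  choose F hF1 hF2 using h
  refine ⟨insert 1 (univ.biUnion F), mem_insert_self _ _, fun e he => ?_, fun x hx => ?_⟩
  · rcases mem_insert.1 he with rfl | he
    · exact one_ne_zero
    · obtain ⟨Y, -, hY⟩ := mem_biUnion.1 he
      exact hF1 Y e hY
  · by_contra h
    obtain ⟨e, he, h2⟩ := hF2 _ h x hx
    exact h2 (mem_image.2 ⟨e, mem_insert_of_mem (mem_biUnion.2 ⟨_, mem_univ _, he⟩), rfl⟩)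

theorem exists_t (K N : ℕ) : ∃ (t : ℕ → Finset κ → ℚ) (Z : Finset ℚ), (∀ c l, t c l ≠ 0) ∧
    (∀ z ∈ Z, z ≠ 0) ∧ ∀ (l : ℕ → Finset κ) (μ : ℕ → ℕ), (∀ c < N, 1 ≤ μ c ∧ μ c ≤ K) →
      (∀ j ≤ N, ∏ c ∈ range j, (t c (l c) * (μ c : ℚ)) ∈ Z) ∧
      ∀ i k, i + k + 1 ≤ N → Thick col (l i) →
        col (∏ c ∈ range (k + 1), (t (i + c) (l (i + c)) * (μ (i + c) : ℚ))) ∈ l i := by
  induction N with
  | zero =>
    exact ⟨fun _ _ => 1, {1}, by simp, by simp, fun l μ _ =>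
      ⟨fun j hj => by simp [show j = 0 by omega], fun i k h => by omega⟩⟩
  | succ N ih =>
    obtain ⟨t, Z, ht, hZ, h⟩ := ih
    let E : Finset ℚ := (Icc 1 K ×ˢ Z).image fun z => (z.1 : ℚ) * z.2
    have hE : ∀ e ∈ E, e ≠ 0 := by
      intro e he
      obtain ⟨⟨μ, z⟩, hz, rfl⟩ := mem_image.1 he
      obtain ⟨h1, h2⟩ := mem_product.1 hz
      have := (mem_Icc.1 h1).1
      exact mul_ne_zero (Nat.cast_ne_zero.2 (by simp only at this ⊢; omega)) (hZ _ h2)
    have h0 : ∀ Y : Finset κ, ∃ s : ℚ, s ≠ 0 ∧ (Thick col Y → ∀ e ∈ E, col (s * e) ∈ Y) := by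
      intro Y
      by_cases hY : Thick col Y
      · obtain ⟨s, h1, h2⟩ := hY E hE
        exact ⟨s, h1, fun _ => h2⟩
      · exact ⟨1, one_ne_zero, fun h => absurd h hY⟩
    choose t₀ ht₀ ht₁ using h0
    let t' : ℕ → Finset κ → ℚ := fun c => Nat.casesOn c t₀ t
    refine ⟨t', insert 1 ((univ ×ˢ E).image fun z => t₀ z.1 * z.2), ?_, fun z hz => ?_,
      fun l μ hμ => ?_⟩
    · rintro (_ | c) l
      · exact ht₀ l
      · exact ht c l
    · rcases mem_insert.1 hz with rfl | hz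
      · exact one_ne_zero
      · obtain ⟨⟨Y, e⟩, hz', rfl⟩ := mem_image.1 hz
        exact mul_ne_zero (ht₀ _) (hE _ (mem_product.1 hz').2)
    obtain ⟨h1, h2⟩ := h (fun c => l (c + 1)) (fun c => μ (c + 1)) fun c hc => hμ _ (by omega)
    have h3 : ∀ j ≤ N, ∃ e ∈ E, ∏ c ∈ range (j + 1), (t' c (l c) * (μ c : ℚ)) = t₀ (l 0) * e := by
      intro j hj
      refine ⟨(μ 0 : ℚ) * ∏ c ∈ range j, (t c (l (c + 1)) * (μ (c + 1) : ℚ)), mem_image.2
        ⟨(μ 0, _), mem_product.2 ⟨mem_Icc.2 (hμ 0 (by omega)), h1 j hj⟩, rfl⟩, ?_⟩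
      rw [prod_range_succ']
      show (∏ c ∈ range j, (t c (l (c + 1)) * (μ (c + 1) : ℚ))) * (t₀ (l 0) * (μ 0 : ℚ)) = _
      ring
    refine ⟨?_, ?_⟩
    · rintro (_ | j) hj
      · simp
      · obtain ⟨e, he, h4⟩ := h3 j (by omega)
        rw [h4]
        exact mem_insert_of_mem (mem_image.2 ⟨(l 0, e), by simp [he], rfl⟩)
    · rintro (_ | i) k hk hl
      · obtain ⟨e, he, h4⟩ := h3 k (by omega)
        simp only [zero_add]
        rw [h4]
        exact ht₁ _ hl e he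
      · have h4 := h2 i k (by omega) hl
        simp only [Nat.add_right_comm i 1]
        exact h4

theorem main (h0 : ∀ x, col x = col 0 → x = 0) (P : Finset ℤ[X]) (hP : ∀ p ∈ P, p.coeff 0 = 0)
    (hX : X ∈ P) : ∃ x y : ℚ, x ≠ 0 ∧ y ≠ 0 ∧ col y = col x ∧ col (x * y) = col x ∧
      ∀ p ∈ P, col (x + aeval y p) = col x := by
  classical
  obtain ⟨E, hE1, hE0, hE⟩ := exists_E col
  let N := Fintype.card (E → κ)
  have hN : 1 ≤ N := Fintype.card_pos_iff.2 ⟨fun _ => col 0⟩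
  let D := P.sup natDegree
  choose α hα using key_mono
  obtain ⟨M, hM⟩ := iter_unif N (Fin N × Fin N × (Fin N → Finset κ) × E × P) (Fin D) κ
    (fun z => z.1 + z.2.1 + 1) (fun z s => α z.1 z.2.1 s)
  obtain ⟨t, Z, ht, -, hZ⟩ := exists_t col ((range N).sup fun c => mM c fun _ => M) N
  let ex : (Fin N → Finset κ) → ℕ → Finset κ := fun l c => if h : c < N then l ⟨c, h⟩ else ∅
  obtain ⟨x, n, hn, hx⟩ := hM ℚ
    (fun z s => (z.2.2.2.2.1.coeff (s + 1) : ℚ) *
      (∏ c ∈ range (z.2.1 + 1), t (z.1 + c) (ex z.2.2.1 (z.1 + c))) ^ ((s : ℕ) + 1) /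
        ((∏ c ∈ range z.1, t c (ex z.2.2.1 c)) * z.2.2.2.1.1))
    (fun z n x => col (x * (∏ c ∈ range z.1, (t c (ex z.2.2.1 c) * (mM c n : ℚ))) * z.2.2.2.1.1))
    (fun z n n' h => by
      funext x
      congr 3
      refine prod_congr rfl fun c hc => ?_
      have := mem_range.1 hc
      rw [(mono_mM c).congr fun b hb => h b (by omega)])
  have hμ : ∀ c < N, 1 ≤ mM c n ∧ mM c n ≤ (range N).sup fun c => mM c fun _ => M := fun c hc =>
    ⟨((mono_mM c).bound hn).1, ((mono_mM c).bound hn).2.trans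
      (le_sup (f := fun c => mM c fun _ => M) (mem_range.2 hc))⟩
  have hm0 : ∀ c, (mM c n : ℚ) ≠ 0 := fun c =>
    Nat.cast_ne_zero.2 (by have := ((mono_mM c).bound hn).1; omega)
  -- the conditions in readable form
  have hc : ∀ i k, i + k + 1 ≤ N → ∀ l : Fin N → Finset κ, ∀ e ∈ E, ∀ p ∈ P,
      col (x * (∏ c ∈ range i, (t c (ex l c) * (mM c n : ℚ))) * e +
        aeval (∏ c ∈ range (k + 1), (t (i + c) (ex l (i + c)) * (mM (i + c) n : ℚ))) p) =
      col (x * (∏ c ∈ range i, (t c (ex l c) * (mM c n : ℚ))) * e) := by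
    intro i k hik l e he p hp
    have h1 := hx (⟨i, by omega⟩, ⟨k, by omega⟩, l, ⟨e, he⟩, ⟨p, hp⟩) (by simp) hik
    simp only at h1
    rw [← h1]
    congr 1
    have hd : p.natDegree < D + 1 := Nat.lt_succ_of_le (le_sup (f := natDegree) hp)
    rw [aeval_eq_sum_range' hd, sum_range_succ', hP p hp, zero_smul, add_zero, add_mul, add_mul,
      sum_mul, sum_mul, Finset.sum_range]
    congr 1
    refine sum_congr rfl fun s _ => ?_
    have h2 : ((∏ c ∈ range (k + 1), (mM (i + c) n : ℚ))) ^ ((s : ℕ) + 1) =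
        (∏ c ∈ range i, (mM c n : ℚ)) * ∏ b ∈ range (i + k + 1), (n b : ℚ) ^ (α i k s b + 1) := by
      have h3 := hα i k s n
      have h4 := mA_add 0 i n
      simp only [zero_add, mA, one_mul] at h4
      rw [h4] at h3
      exact_mod_cast h3
    have h3 : (∏ c ∈ range i, t c (ex l c)) ≠ 0 := prod_ne_zero_iff.2 fun c _ => ht _ _
    have h4 := hE0 e he
    rw [prod_mul_distrib, prod_mul_distrib, mul_pow, h2, zsmul_eq_mul]
    field_simp
  have hx0 : x ≠ 0 := by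
    rintro rfl
    have h1 := hc 0 0 (by omega) (fun _ => ∅) 1 hE1 X hX
    simp only [zero_mul, zero_add, aeval_X] at h1
    exact prod_ne_zero_iff.2 (fun c _ => mul_ne_zero (ht _ _) (hm0 _)) (h0 _ h1)
  -- the path
  let W : ℕ → ℚ := fun c => Nat.rec x
    (fun c w => w * (t c (E.image fun e => col (w * e)) * (mM c n : ℚ))) c
  let L : ℕ → Finset κ := fun c => E.image fun e => col (W c * e)
  let l : Fin N → Finset κ := fun c => L c
  have hl : ∀ c < N, ex l c = L c := fun c hc => by simp [ex, l, hc]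
  have hW : ∀ i k, W (i + k) = W i * ∏ c ∈ range k, (t (i + c) (L (i + c)) * (mM (i + c) n : ℚ)) := by
    intro i k
    induction k with
    | zero => simp
    | succ k ih => rw [prod_range_succ, ← mul_assoc, ← ih, ← add_assoc]
  have hW0 : ∀ i, W i = x * ∏ c ∈ range i, (t c (L c) * (mM c n : ℚ)) := fun i => by
    have h := hW 0 i
    simp only [zero_add] at h
    exact h
  have hWne : ∀ i, W i ≠ 0 := fun i => by
    rw [hW0]
    exact mul_ne_zero hx0 (prod_ne_zero_iff.2 fun c _ => mul_ne_zero (ht _ _) (hm0 _))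
  obtain ⟨i, k, hik, heq⟩ : ∃ i k, i + k + 1 ≤ N ∧
      ∀ e ∈ E, col (W (i + (k + 1)) * e) = col (W i * e) := by
    obtain ⟨i, j, hij, h⟩ := Fintype.exists_ne_map_eq_of_card_lt
      (fun i : Fin (N + 1) => fun e : E => col (W i * e)) (by simp [N])
    wlog hlt : i < j generalizing i j
    · exact this j i hij.symm h.symm (lt_of_le_of_ne (not_lt.1 hlt) hij.symm)
    have h1 : (i : ℕ) < j := hlt
    have h2 := j.2
    refine ⟨i, j - i - 1, by omega, fun e he => ?_⟩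
    rw [show (i : ℕ) + (j - i - 1 + 1) = j by omega]
    exact (congrFun h ⟨e, he⟩).symm
  have h1 := (hZ L (fun c => mM c n) hμ).2 i k hik (hE _ (hWne i))
  obtain ⟨e, he, h2⟩ := mem_image.1 h1
  refine ⟨W i * e, _, mul_ne_zero (hWne i) (hE0 e he),
    prod_ne_zero_iff.2 fun c _ => mul_ne_zero (ht _ _) (hm0 _), h2.symm, ?_, fun p hp => ?_⟩
  · rw [← heq e he, hW, mul_right_comm]
  · have h3 := hc i k hik l e he p hp
    rw [prod_congr rfl fun c hc => by rw [hl c (by have := mem_range.1 hc; omega)], ← hW0,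
      prod_congr rfl fun c hc => by rw [hl (i + c) (by have := mem_range.1 hc; omega)]] at h3
    exact h3

end

end Pool.Agent.H165Z.Pvdw
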